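import Pool.Agent.W_MP_901ac1_lc.Main
import Pool.Agent.W_MP_901ac1_lc.Outcome

/-!
# The outcome problem of Hit on directed graphs with cycles is EXPTIME-hard
-/

set_option autoImplicit false

open Turing Computability

namespace Pool.Agent.Results.MP_901ac1_lc.ExpHard

open Pool.Agent.W_MP_901ac1_lc

/-- Every instance of Hit has exactly one outcome, and the outcome problem is EXPTIME-hard: every
language `L` in EXPTIME reduces to it by a polynomial-time computable map `f` from bit strings to
well-formed instances such that `x ∈ L` iff the player to move can force a win in `f x`. -/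
theorem result :
    Function.Injective Inst.code ∧
    (∀ I : Inst, ∃! o, I.HasOutcome o) ∧
    ∀ L : Set (List Bool), InEXP L →
      ∃ f : List Bool → Inst,
        Nonempty (TM2ComputableInPolyTime (fun x : List Bool => x) Inst.code f) ∧
        (∀ x, (f x).WF) ∧
        ∀ x, x ∈ L ↔ (f x).HasOutcome Outcome.next :=
  ⟨code_injective, fun I => I.existsUnique_outcome, fun _ hL => exp_hard hL⟩

end Pool.Agent.Results.MP_901ac1_lc.ExpHard
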